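import Pool.Agent.H773.LK.Spec

set_option autoImplicit false

noncomputable section

namespace Pool.Agent.H328.LK

open MeasureTheory Filter Topology Set
open scoped ENNReal NNReal ComplexConjugate InnerProductSpace
open Pool.Agent.H773.LK

variable {L : ℝ}

theorem memLp_cont {g : ℝ → ℂ} (hg : Continuous g) :
    MemLp g 2 (volume.restrict (Ioc (0 : ℝ) L)) := by
  obtain ⟨C, hC⟩ := (isCompact_Icc (a := (0 : ℝ)) (b := L)).exists_bound_of_continuousOn
    hg.continuousOn
  refine MemLp.of_bound hg.aestronglyMeasurable C ?_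
  refine (ae_restrict_iff' measurableSet_Ioc).2 (Eventually.of_forall fun t ht => ?_)
  exact hC t ⟨ht.1.le, ht.2⟩

theorem norm_sq_eq (f : EL L) : ‖f‖ ^ 2 = ∫ s in Ioc (0 : ℝ) L, ‖f s‖ ^ 2 := by
  have h1 : ((‖f‖ ^ 2 : ℝ) : ℂ) = ⟪f, f⟫_ℂ := by
    rw [inner_self_eq_norm_sq_to_K]; push_cast; rfl
  have h2 : ⟪f, f⟫_ℂ = ((∫ s in Ioc (0 : ℝ) L, ‖f s‖ ^ 2 : ℝ) : ℂ) := by
    rw [L2.inner_def, ← integral_complex_ofReal]
    refine integral_congr_ae (Eventually.of_forall fun s => ?_)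
    show ⟪f s, f s⟫_ℂ = _
    rw [inner_self_eq_norm_sq_to_K]
    push_cast
    rfl
  rw [h2] at h1
  exact_mod_cast h1

theorem norm_sq_toLp {g : ℝ → ℂ} (hg : MemLp g 2 (volume.restrict (Ioc (0 : ℝ) L))) :
    ‖hg.toLp g‖ ^ 2 = ∫ s in Ioc (0 : ℝ) L, ‖g s‖ ^ 2 := by
  rw [norm_sq_eq]
  exact integral_congr_ae (hg.coeFn_toLp.mono fun s hs => by simp only [hs])

/-- the section of the kernel as an element of `L²` -/
def ka (L : ℝ) {k : ℝ → ℝ → ℂ} (hk : Continuous (Function.uncurry k)) (s : ℝ) : EL L :=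
  (memLp_cont (L := L) (g := fun t => conj (k s t))
    (Complex.continuous_conj.comp (hk.comp (continuous_const.prodMk continuous_id)))).toLp _

theorem inner_ka {k : ℝ → ℝ → ℂ} (hk : Continuous (Function.uncurry k)) (s : ℝ) (e : EL L) :
    ⟪ka L hk s, e⟫_ℂ = ∫ t in Ioc (0 : ℝ) L, k s t * e t := by
  rw [L2.inner_def]
  refine integral_congr_ae ?_
  filter_upwards [(memLp_cont (L := L) (g := fun t => conj (k s t))
    (Complex.continuous_conj.comp (hk.comp (continuous_const.prodMk continuous_id)))).coeFn_toLp] with t ht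
  unfold ka
  rw [ht, RCLike.inner_apply]
  simp [mul_comm]

theorem norm_ka {k : ℝ → ℝ → ℂ} (hk : Continuous (Function.uncurry k)) (s : ℝ) :
    ‖ka L hk s‖ ^ 2 = ∫ t in Ioc (0 : ℝ) L, ‖k s t‖ ^ 2 := by
  unfold ka
  rw [norm_sq_toLp]
  simp only [RCLike.norm_conj]

theorem ka_cont (hL : 0 ≤ L) {k : ℝ → ℝ → ℂ} (hk : Continuous (Function.uncurry k)) :
    Continuous (ka L hk) := by
  rw [continuous_iff_continuousAt]
  intro s
  rw [ContinuousAt, tendsto_iff_dist_tendsto_zero]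
  have h1 : ∀ s', dist (ka L hk s') (ka L hk s) = √(∫ t in (0 : ℝ)..L, ‖k s' t - k s t‖ ^ 2) := by
    intro s'
    rw [dist_eq_norm, ← Real.sqrt_sq (norm_nonneg (ka L hk s' - ka L hk s))]
    congr 1
    unfold ka
    rw [← MemLp.toLp_sub, norm_sq_toLp, intervalIntegral.integral_of_le hL]
    refine integral_congr_ae (Eventually.of_forall fun t => ?_)
    simp only [Pi.sub_apply]
    rw [← map_sub, RCLike.norm_conj]
  simp only [h1]
  have h2 : Continuous fun s' => ∫ t in (0 : ℝ)..L, ‖k s' t - k s t‖ ^ 2 := by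
    apply intervalIntegral.continuous_parametric_intervalIntegral_of_continuous'
    have h3 : Continuous fun p : ℝ × ℝ => k p.1 p.2 := hk
    have h4 : Continuous fun p : ℝ × ℝ => k s p.2 := hk.comp (continuous_const.prodMk continuous_snd)
    unfold Function.uncurry
    exact ((h3.sub h4).norm.pow 2)
  have h3 := (Real.continuous_sqrt.comp h2).tendsto s
  simpa [Function.comp_def] using h3

/-- the operator -/
theorem exists_op (hL : 0 ≤ L) {k : ℝ → ℝ → ℂ} (hk : Continuous (Function.uncurry k)) :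
    ∃ T : EL L →L[ℂ] EL L, IsKop L k T ∧ (∀ e : EL L, ‖T e‖ ^ 2 = ∫ s in Ioc (0 : ℝ) L, ‖⟪ka L hk s, e⟫_ℂ‖ ^ 2) ∧
      ‖T‖ ^ 2 ≤ ∫ s in Ioc (0 : ℝ) L, ∫ t in Ioc (0 : ℝ) L, ‖k s t‖ ^ 2 := by
  have hc : ∀ e : EL L, Continuous fun s => ⟪ka L hk s, e⟫_ℂ := fun e =>
    (ka_cont hL hk).inner continuous_const
  have hm : ∀ e : EL L, MemLp (fun s => ⟪ka L hk s, e⟫_ℂ) 2 (volume.restrict (Ioc (0 : ℝ) L)) :=
    fun e => memLp_cont (hc e)
  set B : ℝ := ∫ s in Ioc (0 : ℝ) L, ∫ t in Ioc (0 : ℝ) L, ‖k s t‖ ^ 2 with hB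
  have hB0 : 0 ≤ B := integral_nonneg fun s => integral_nonneg fun t => sq_nonneg _
  have hn : ∀ e : EL L, ‖(hm e).toLp _‖ ^ 2 ≤ B * ‖e‖ ^ 2 := by
    intro e
    rw [norm_sq_toLp]
    have h1 : Continuous fun s => ‖⟪ka L hk s, e⟫_ℂ‖ ^ 2 := (hc e).norm.pow 2
    have h2 : Continuous fun s => ‖ka L hk s‖ ^ 2 * ‖e‖ ^ 2 := ((ka_cont hL hk).norm.pow 2).mul_const _
    have hI : ∀ g : ℝ → ℝ, Continuous g → IntegrableOn g (Ioc (0 : ℝ) L) := fun g hg =>
      (hg.continuousOn.integrableOn_compact isCompact_Icc).mono_set Ioc_subset_Icc_self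
    calc ∫ s in Ioc (0 : ℝ) L, ‖⟪ka L hk s, e⟫_ℂ‖ ^ 2 ≤ ∫ s in Ioc (0 : ℝ) L, ‖ka L hk s‖ ^ 2 * ‖e‖ ^ 2 := by
          refine integral_mono (hI _ h1) (hI _ h2) fun s => ?_
          simp only []
          rw [← mul_pow]
          exact pow_le_pow_left₀ (norm_nonneg _) (norm_inner_le_norm _ _) 2
      _ = B * ‖e‖ ^ 2 := by
          rw [integral_mul_const, hB]
          congr 1
          exact integral_congr_ae (Eventually.of_forall fun s => norm_ka hk s)
  have hn' : ∀ e : EL L, ‖(hm e).toLp _‖ ≤ √B * ‖e‖ := by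
    intro e
    refine le_of_sq_le_sq ?_ (by positivity)
    rw [mul_pow, Real.sq_sqrt hB0]
    exact hn e
  let T0 : EL L →ₗ[ℂ] EL L :=
    { toFun := fun e => (hm e).toLp _
      map_add' := fun e e' => by
        rw [← MemLp.toLp_add]
        refine MemLp.toLp_congr _ _ (Eventually.of_forall fun s => ?_)
        simp only [Pi.add_apply]
        exact inner_add_right _ _ _
      map_smul' := fun c e => by
        rw [← MemLp.toLp_const_smul]
        refine MemLp.toLp_congr _ _ (Eventually.of_forall fun s => ?_)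
        simp only [Pi.smul_apply, smul_eq_mul, RingHom.id_apply]
        exact inner_smul_right _ _ _ }
  refine ⟨T0.mkContinuous (√B) hn', ?_, ?_, ?_⟩
  · intro e
    refine (hm e).coeFn_toLp.trans (Eventually.of_forall fun s => ?_)
    exact inner_ka hk s e
  · intro e
    exact norm_sq_toLp (hm e)
  · have h1 := T0.mkContinuous_norm_le (Real.sqrt_nonneg B) hn'
    calc _ ≤ (√B) ^ 2 := pow_le_pow_left₀ (norm_nonneg _) h1 2
      _ = B := Real.sq_sqrt hB0

theorem kop_unique {k : ℝ → ℝ → ℂ} {T T' : EL L →L[ℂ] EL L} (h : IsKop L k T) (h' : IsKop L k T') : T = T' := by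
  ext e
  exact (h e).trans (h' e).symm

theorem kop_eq {k : ℝ → ℝ → ℂ} {T : EL L →L[ℂ] EL L} (h : IsKop L k T) : kop L k = T := by
  have hex : ∃ T, IsKop L k T := ⟨T, h⟩
  unfold kop
  rw [dif_pos hex]
  exact kop_unique hex.choose_spec h

theorem int_ke {k : ℝ → ℝ → ℂ} (hk : Continuous (Function.uncurry k)) (s : ℝ) (e : EL L) :
    Integrable (fun t => k s t * e t) (volume.restrict (Ioc (0 : ℝ) L)) := by
  have h1 : Integrable (fun t => e t) (volume.restrict (Ioc (0 : ℝ) L)) :=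
    (Lp.memLp e).integrable (by norm_num)
  have h2 : Continuous (k s) := hk.comp (continuous_const.prodMk continuous_id)
  obtain ⟨C, hC⟩ := (isCompact_Icc (a := (0 : ℝ)) (b := L)).exists_bound_of_continuousOn h2.continuousOn
  refine h1.bdd_mul (c := C) h2.aestronglyMeasurable ?_
  exact (ae_restrict_iff' measurableSet_Ioc).2 (Eventually.of_forall fun t ht => hC t ⟨ht.1.le, ht.2⟩)

/-- finite rank approximation -/
theorem frk (hL : 0 ≤ L) {k : ℝ → ℝ → ℂ} (hk : Continuous (Function.uncurry k)) {T : EL L →L[ℂ] EL L}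
    (hT : ∀ e : EL L, ‖T e‖ ^ 2 = ∫ s in Ioc (0 : ℝ) L, ‖⟪ka L hk s, e⟫_ℂ‖ ^ 2) : FRk T := by
  intro ε hε
  set δ : ℝ := ε / (√L + 1) with hδ
  have hδ0 : 0 < δ := by positivity
  have hcomp : IsCompact (ka L hk '' Icc (0 : ℝ) L) := isCompact_Icc.image (ka_cont hL hk)
  obtain ⟨t, htfin, htc⟩ := Metric.totallyBounded_iff.1 hcomp.totallyBounded δ hδ0
  set W : Submodule ℂ (EL L) := Submodule.span ℂ t with hW
  have : FiniteDimensional ℂ W := FiniteDimensional.span_of_finite ℂ htfin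
  let b := stdOrthonormalBasis ℂ W
  refine ⟨Module.finrank ℂ W, fun i => (b i : EL L), b.orthonormal.comp_linearIsometry W.subtypeₗᵢ, ?_⟩
  intro e he
  have hWe : ∀ w ∈ W, ⟪w, e⟫_ℂ = 0 := by
    intro w hw
    have h1 := b.sum_repr ⟨w, hw⟩
    have h2 : w = ∑ i, b.repr ⟨w, hw⟩ i • (b i : EL L) := by
      conv_lhs => rw [show w = ((⟨w, hw⟩ : W) : EL L) from rfl, ← h1]
      simp
    rw [h2, sum_inner]
    refine Finset.sum_eq_zero fun i _ => ?_
    rw [inner_smul_left, he i, mul_zero]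
  have hpt : ∀ s ∈ Icc (0 : ℝ) L, ‖⟪ka L hk s, e⟫_ℂ‖ ≤ δ * ‖e‖ := by
    intro s hs
    have h1 := htc (mem_image_of_mem _ hs)
    simp only [mem_iUnion, exists_prop] at h1
    obtain ⟨y, hy, hys⟩ := h1
    have h2 : ⟪ka L hk s, e⟫_ℂ = ⟪ka L hk s - y, e⟫_ℂ := by
      rw [inner_sub_left, hWe y (Submodule.subset_span hy), sub_zero]
    rw [h2]
    refine (norm_inner_le_norm _ _).trans (mul_le_mul_of_nonneg_right ?_ (norm_nonneg _))
    rw [Metric.mem_ball, dist_eq_norm] at hys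
    exact hys.le
  refine le_of_sq_le_sq ?_ (by positivity)
  rw [hT e]
  have hI : ∀ g : ℝ → ℝ, Continuous g → IntegrableOn g (Ioc (0 : ℝ) L) := fun g hg =>
    (hg.continuousOn.integrableOn_compact isCompact_Icc).mono_set Ioc_subset_Icc_self
  calc ∫ s in Ioc (0 : ℝ) L, ‖⟪ka L hk s, e⟫_ℂ‖ ^ 2 ≤ ∫ s in Ioc (0 : ℝ) L, (δ * ‖e‖) ^ 2 := by
        refine setIntegral_mono_on (hI _ (((ka_cont hL hk).inner continuous_const).norm.pow 2))
          (hI _ continuous_const) measurableSet_Ioc fun s hs => ?_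
        exact pow_le_pow_left₀ (norm_nonneg _) (hpt s ⟨hs.1.le, hs.2⟩) 2
    _ = L * (δ * ‖e‖) ^ 2 := by
        rw [setIntegral_const, smul_eq_mul, measureReal_def, Real.volume_Ioc, sub_zero,
          ENNReal.toReal_ofReal hL]
    _ = (√L * δ) ^ 2 * ‖e‖ ^ 2 := by rw [mul_pow, mul_pow, Real.sq_sqrt hL]; ring
    _ ≤ ε ^ 2 * ‖e‖ ^ 2 := by
        refine mul_le_mul_of_nonneg_right (pow_le_pow_left₀ (by positivity) ?_ 2) (sq_nonneg _)
        rw [hδ, mul_div_assoc', div_le_iff₀ (by positivity)]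
        nlinarith [Real.sqrt_nonneg L]
    _ = (ε * ‖e‖) ^ 2 := by ring

theorem inner_op {k : ℝ → ℝ → ℂ} {T : EL L →L[ℂ] EL L} (h : IsKop L k T) (e' e : EL L) :
    ⟪e', T e⟫_ℂ = ∫ s in Ioc (0 : ℝ) L, ∫ t in Ioc (0 : ℝ) L, conj (e' s) * (k s t * e t) := by
  rw [L2.inner_def]
  refine integral_congr_ae ?_
  filter_upwards [h e] with s hs
  rw [hs, integral_const_mul, RCLike.inner_apply]
  exact mul_comm _ _

theorem adj_op {k : ℝ → ℝ → ℂ} (hk : Continuous (Function.uncurry k)) {T T' : EL L →L[ℂ] EL L}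
    (h : IsKop L k T) (h' : IsKop L (fun s t => conj (k t s)) T') : T.adjoint = T' := by
  symm
  rw [ContinuousLinearMap.eq_adjoint_iff]
  intro x y
  rw [← inner_conj_symm, inner_op h', inner_op h, ← integral_conj]
  have e1 : ∀ s, conj (∫ t in Ioc (0 : ℝ) L, conj (y s) * (conj (k t s) * x t)) =
      ∫ t in Ioc (0 : ℝ) L, conj (x t) * (k t s * y s) := by
    intro s
    rw [← integral_conj]
    refine integral_congr_ae (Eventually.of_forall fun t => ?_)
    simp only [map_mul, Complex.conj_conj]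
    ring
  simp only [e1]
  refine integral_integral_swap (f := fun s t => conj (x t) * (k t s * y s)) ?_
  have hx : Integrable (fun t => conj (x t)) (volume.restrict (Ioc (0 : ℝ) L)) := by
    have := (Lp.memLp x).integrable (by norm_num : (1 : ℝ≥0∞) ≤ 2)
    exact (Complex.conjCLE : ℂ →L[ℝ] ℂ).integrable_comp this
  have hy : Integrable (fun t => y t) (volume.restrict (Ioc (0 : ℝ) L)) :=
    (Lp.memLp y).integrable (by norm_num)
  have hp := hy.mul_prod hx
  have hk' : Continuous fun p : ℝ × ℝ => k p.2 p.1 := hk.comp (continuous_snd.prodMk continuous_fst)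
  obtain ⟨C, hC⟩ := ((isCompact_Icc (a := (0 : ℝ)) (b := L)).prod
    (isCompact_Icc (a := (0 : ℝ)) (b := L))).exists_bound_of_continuousOn hk'.continuousOn
  have h2 := hp.bdd_mul (c := C) (f := fun p : ℝ × ℝ => k p.2 p.1) hk'.aestronglyMeasurable (by
    rw [Measure.prod_restrict]
    refine (ae_restrict_iff' (measurableSet_Ioc.prod measurableSet_Ioc)).2
      (Eventually.of_forall fun p hp => hC p ⟨⟨hp.1.1.le, hp.1.2⟩, ⟨hp.2.1.le, hp.2.2⟩⟩))
  refine h2.congr (Eventually.of_forall fun p => ?_)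
  simp only [Function.uncurry]
  ring

theorem t_KOP : S_KOP := by
  intro L hL
  refine ⟨fun k hk => ?_, fun k k' hk hk' => ?_, fun k c hk => ?_⟩
  · obtain ⟨T, h1, h2, h3⟩ := exists_op hL.le hk
    have hkT : kop L k = T := kop_eq h1
    rw [hkT]
    refine ⟨h1, h3, frk hL.le hk h2, fun e' e => inner_op h1 e' e, ?_⟩
    have hk2 : Continuous (Function.uncurry fun s t => conj (k t s)) :=
      Complex.continuous_conj.comp (hk.comp (continuous_snd.prodMk continuous_fst))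
    obtain ⟨T', h1', -, -⟩ := exists_op hL.le hk2
    rw [kop_eq h1']
    exact adj_op hk h1 h1'
  · obtain ⟨T, h1, -, -⟩ := exists_op hL.le hk
    obtain ⟨T', h1', -, -⟩ := exists_op hL.le hk'
    rw [kop_eq h1, kop_eq h1']
    apply kop_eq
    intro e
    filter_upwards [h1 e, h1' e, Lp.coeFn_add (T e) (T' e)] with s hs hs' hs2
    rw [add_apply, hs2, Pi.add_apply, hs, hs', ← integral_add (int_ke hk s e) (int_ke hk' s e)]
    exact integral_congr_ae (Eventually.of_forall fun t => by simp only []; ring)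
  · obtain ⟨T, h1, -, -⟩ := exists_op hL.le hk
    rw [kop_eq h1]
    apply kop_eq
    intro e
    filter_upwards [h1 e, Lp.coeFn_smul c (T e)] with s hs hs2
    rw [smul_apply, hs2, Pi.smul_apply, hs, smul_eq_mul, ← integral_const_mul]
    exact integral_congr_ae (Eventually.of_forall fun t => by simp only []; ring)

end Pool.Agent.H328.LK
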